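import Pool.Agent.H25.HK.Targets

/-!
# (FD) the fundamental domain of the unit lattice
-/

set_option autoImplicit false

open NumberField NumberField.InfinitePlace NumberField.Units
  NumberField.Units.dirichletUnitTheorem MeasureTheory Set Filter Complex
open scoped nonZeroDivisors ENNReal

namespace Pool.Agent.H66.HK

open Pool.Agent.H25.HK

/-- integrability of a sum from the integrability of the norms -/
theorem integrable_tsum_norm {α ι : Type*} [MeasurableSpace α] [Countable ι] {μ : Measure α}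
    (f : ι → α → ℂ) (hm : ∀ i, AEStronglyMeasurable (f i) μ)
    (h : ∑' i, ∫⁻ a, ‖f i a‖ₑ ∂μ ≠ ∞) : Integrable (fun a => ∑' i, f i a) μ := by
  have h1 : ∫⁻ a, ∑' i, ‖f i a‖ₑ ∂μ = ∑' i, ∫⁻ a, ‖f i a‖ₑ ∂μ :=
    lintegral_tsum (fun i => (hm i).enorm)
  have hae : ∀ᵐ a ∂μ, ∑' i, ‖f i a‖ₑ < ∞ := by
    refine ae_lt_top' (AEMeasurable.tsum fun i => (hm i).enorm) ?_
    rw [h1]; exact h
  have hs : ∀ᵐ a ∂μ, Summable (fun i => f i a) := by
    filter_upwards [hae] with a ha
    have h2 : Summable (fun i => ‖f i a‖₊) := ENNReal.tsum_coe_ne_top_iff_summable.1 ha.ne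
    exact Summable.of_norm (by simpa using NNReal.summable_coe.2 h2)
  refine ⟨?_, ?_⟩
  · refine aestronglyMeasurable_of_tendsto_ae (u := (atTop : Filter (Finset ι)))
      (f := fun s a => ∑ i ∈ s, f i a) (fun s => ?_) ?_
    · exact Finset.aestronglyMeasurable_fun_sum s (fun i _ => hm i)
    · filter_upwards [hs] with a ha
      exact ha.hasSum
  · refine lt_of_le_of_lt (lintegral_mono_ae (g := fun a => ∑' i, ‖f i a‖ₑ) ?_) ?_
    · filter_upwards [hs] with a ha
      exact enorm_tsum_le_tsum_enorm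
    · rw [h1]; exact lt_top_iff_ne_top.2 h

/-- everything for an arbitrary lattice with a basis -/
theorem gen {E : Type*} [NormedAddCommGroup E] [NormedSpace ℝ E] [MeasurableSpace E]
    [BorelSpace E] [FiniteDimensional ℝ E] (μ : Measure E) [μ.IsAddHaarMeasure]
    [μ.IsNegInvariant] {κ : Type*} [Finite κ]
    (b : Module.Basis κ ℝ E) (L : Submodule ℤ E) (hL : Submodule.span ℤ (Set.range b) = L) :
    MeasurableSet (ZSpan.fundamentalDomain b) ∧
    (∃ B : ℝ, ∀ z ∈ ZSpan.fundamentalDomain b, ‖z‖ ≤ B) ∧ 0 < μ (ZSpan.fundamentalDomain b) ∧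
    μ (ZSpan.fundamentalDomain b) < ⊤ ∧
    (∀ g : E → ℝ≥0∞, Measurable g →
      ∫⁻ z in ZSpan.fundamentalDomain b, ∑' l : L, g (z + l) ∂μ = ∫⁻ z, g z ∂μ) ∧
    (∀ g : E → ℂ, Integrable g μ → IntegrableOn (fun z => ∑' l : L, g (z + l))
      (ZSpan.fundamentalDomain b) μ ∧
      ∫ z in ZSpan.fundamentalDomain b, ∑' l : L, g (z + l) ∂μ = ∫ z, g z ∂μ) ∧
    (∀ g : E → ℝ, (∀ z, ∀ l ∈ L, g (z + l) = g z) →
      ∫ z in ZSpan.fundamentalDomain b, g (-z) ∂μ = ∫ z in ZSpan.fundamentalDomain b, g z ∂μ) := by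
  subst hL
  set F := ZSpan.fundamentalDomain b with hF
  have hFm : MeasurableSet F := ZSpan.fundamentalDomain_measurableSet b
  have hd : IsAddFundamentalDomain (Submodule.span ℤ (Set.range b)) F μ :=
    ZSpan.isAddFundamentalDomain b μ
  have hb : Bornology.IsBounded F := ZSpan.fundamentalDomain_isBounded b
  obtain ⟨B, hB⟩ := hb.exists_norm_le
  haveI : Countable (Submodule.span ℤ (Set.range b)) := inferInstance
  haveI : VAddInvariantMeasure (Submodule.span ℤ (Set.range b)) E μ :=
    inferInstanceAs (VAddInvariantMeasure (Submodule.span ℤ (Set.range b)).toAddSubgroup E μ)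
  refine ⟨hFm, ⟨B, hB⟩, pos_iff_ne_zero.2 (ZSpan.measure_fundamentalDomain_ne_zero b),
    hb.measure_lt_top, ?_, ?_, ?_⟩
  · intro g hg
    have hml : ∀ l : Submodule.span ℤ (Set.range b),
        AEMeasurable (fun z => g (z + l)) (μ.restrict F) :=
      fun l => Measurable.aemeasurable (hg.comp (measurable_add_const (l : E)))
    rw [lintegral_tsum hml]
    rw [hd.lintegral_eq_tsum'' g]
    refine tsum_congr fun l => ?_
    refine lintegral_congr fun z => ?_
    rw [Submodule.vadd_def, vadd_eq_add, add_comm]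
  · intro g hg
    have hm : ∀ l : Submodule.span ℤ (Set.range b),
        Integrable (fun z => g (z + l)) μ := fun l => hg.comp_add_right (l : E)
    have hsum : ∑' l : Submodule.span ℤ (Set.range b), ∫⁻ z in F, ‖g (z + l)‖ₑ ∂μ ≠ ∞ := by
      have h1 := hd.lintegral_eq_tsum'' (fun z => ‖g z‖ₑ)
      have h2 : ∑' l : Submodule.span ℤ (Set.range b), ∫⁻ z in F, ‖g (z + l)‖ₑ ∂μ =
          ∫⁻ z, ‖g z‖ₑ ∂μ := by
        rw [h1]
        refine tsum_congr fun l => ?_
        refine lintegral_congr fun z => ?_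
        rw [Submodule.vadd_def, vadd_eq_add, add_comm]
      rw [h2]
      exact hg.2.ne
    refine ⟨integrable_tsum_norm _ (fun l => (hm l).1.restrict) hsum, ?_⟩
    rw [integral_tsum (fun l => (hm l).1.restrict) hsum, hd.integral_eq_tsum'' g hg]
    refine tsum_congr fun l => ?_
    refine integral_congr_ae (ae_of_all _ fun z => ?_)
    simp only [Submodule.vadd_def, vadd_eq_add, add_comm]
  · intro g hg
    have hneg : IsAddFundamentalDomain (Submodule.span ℤ (Set.range b)) (Neg.neg ⁻¹' F) μ := by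
      refine hd.preimage_of_equiv (f := Neg.neg)
        (Measure.measurePreserving_neg μ).quasiMeasurePreserving
        (e := Neg.neg) neg_bijective ?_
      intro l z
      simp [Submodule.vadd_def, vadd_eq_add, add_comm]
    have h1 : ∫ z in F, g (-z) ∂μ = ∫ z in Neg.neg ⁻¹' F, g z ∂μ := by
      have := (Measure.measurePreserving_neg μ).setIntegral_preimage_emb
        (MeasurableEquiv.neg E).measurableEmbedding (fun z => g (-z)) F
      simpa using this.symm
    rw [h1]
    refine (hneg.setIntegral_eq hd ?_)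
    intro l z
    rw [Submodule.vadd_def, vadd_eq_add, add_comm]
    exact hg z l l.2

open scoped Classical in
theorem fd : T_FD := by
  intro K _ _
  have h := gen (volume : Measure (logSpace K))
    ((basisUnitLattice K).ofZLatticeBasis ℝ (unitLattice K)) (unitLattice K)
    ((basisUnitLattice K).ofZLatticeBasis_span ℝ)
  obtain ⟨h1, ⟨B, h2⟩, h3, h4, h5, h6, h7⟩ := h
  refine ⟨h1, ⟨B, fun z hz w => ?_⟩, h3, h4, h5, h6, h7⟩
  exact (norm_le_pi_norm z w).trans (h2 z hz)

end Pool.Agent.H66.HK
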