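import Pool.Agent.H25.HK.Targets

/-!
# (ME) the Mellin transform of the averaged theta function
-/

set_option autoImplicit false

open NumberField NumberField.InfinitePlace NumberField.Units
  NumberField.Units.dirichletUnitTheorem MeasureTheory Set Filter Complex
open scoped nonZeroDivisors ENNReal

namespace Pool.Agent.H66.HK

open Pool.Agent.H25.HK

/-- change of variables in the Mellin transform -/
theorem mellin_exp (F : ℝ → ℂ) (s : ℂ) :
    mellin F s = ∫ τ : ℝ, cexp (s * τ) * F (Real.exp τ) := by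
  have h1 : Real.exp '' (univ : Set ℝ) = Ioi 0 := by
    rw [image_univ, Real.range_exp]
  rw [mellin, ← h1, integral_image_eq_integral_abs_deriv_smul MeasurableSet.univ
    (fun x _ => (Real.hasDerivAt_exp x).hasDerivWithinAt) Real.exp_injective.injOn]
  rw [Measure.restrict_univ]
  refine integral_congr_ae (ae_of_all _ fun τ => ?_)
  simp only [smul_eq_mul, Complex.real_smul]
  rw [abs_of_pos (Real.exp_pos τ), ← mul_assoc]
  congr 1
  rw [Complex.cpow_def_of_ne_zero (by exact_mod_cast (Real.exp_pos τ).ne'), Complex.ofReal_exp,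
    ← Complex.ofReal_exp, ← Complex.ofReal_log (Real.exp_pos τ).le, Real.log_exp,
    Complex.ofReal_exp, ← Complex.exp_add]
  congr 1
  ring

variable (K : Type) [Field K] [NumberField K]

/-- the summand -/
noncomputable def H (x : K) (τ : ℝ) (z : logSpace K) : ℝ :=
  Real.exp (-Real.pi * qK K (yc K τ z) x)

theorem H_pos (x : K) (τ : ℝ) (z : logSpace K) : 0 < H K x τ z := Real.exp_pos _

theorem continuous_qK (x : K) : Continuous (fun y : InfinitePlace K → ℝ => qK K y x) := by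
  unfold qK
  fun_prop

theorem continuous_H (h : T_YC) (x : K) :
    Continuous (fun p : ℝ × logSpace K => H K x p.1 p.2) := by
  unfold H
  have := (h K).2.2.2.2.1
  have h2 := (continuous_qK K x).comp this
  exact Real.continuous_exp.comp (continuous_const.mul h2)

/-- (A) the theta function minus the constant term -/
theorem lemA (hTH : T_TH) (M : FI K) (hM : M ≠ 0)
    (X : {I : Ideal (𝓞 K) // Pri K M I} → K)
    (hX0 : ∀ I, X I ≠ 0) (hXM : ∀ I (u : (𝓞 K)ˣ), (u : K) * X I ∈ M)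
    (hX : ∀ x ∈ M, x ≠ 0 → ∃! p : {I : Ideal (𝓞 K) // Pri K M I} × (𝓞 K)ˣ, x = (p.2 : K) * X p.1)
    (y : InfinitePlace K → ℝ) :
    HasSum (fun p : {I : Ideal (𝓞 K) // Pri K M I} × (𝓞 K)ˣ =>
      Real.exp (-Real.pi * qK K y ((p.2 : K) * X p.1))) (th K M y - 1) := by
  classical
  have hs := (hTH K M hM y).1
  have h1 : HasSum (fun x : {x : K // x ∈ M} => Real.exp (-Real.pi * qK K y x)) (th K M y) :=
    hs.hasSum
  have h0M : (0 : K) ∈ M := by exact zero_mem (M : Submodule (𝓞 K) K)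
  let x0 : {x : K // x ∈ M} := ⟨0, h0M⟩
  have h2 : HasSum (fun x : {x : K // x ∈ M} => if x = x0 then (1 : ℝ) else 0) 1 :=
    hasSum_ite_eq x0 1
  have h3 := h1.sub h2
  let g : {I : Ideal (𝓞 K) // Pri K M I} × (𝓞 K)ˣ → {x : K // x ∈ M} :=
    fun p => ⟨(p.2 : K) * X p.1, hXM _ _⟩
  have hne : ∀ p : {I : Ideal (𝓞 K) // Pri K M I} × (𝓞 K)ˣ, (p.2 : K) * X p.1 ≠ 0 := by
    intro p
    refine mul_ne_zero ?_ (hX0 _)
    simp
  have hg : Function.Injective g := by
    intro p q hpq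
    have e : (p.2 : K) * X p.1 = (q.2 : K) * X q.1 := congrArg Subtype.val hpq
    exact (hX _ (hXM p.1 p.2) (hne p)).unique rfl e
  have h4 : ∀ x : {x : K // x ∈ M}, x ∉ Set.range g →
      (Real.exp (-Real.pi * qK K y x) - if x = x0 then (1 : ℝ) else 0) = 0 := by
    intro x hx
    by_cases hx0 : x = x0
    · rw [if_pos hx0, hx0]
      simp [x0, qK]
    · exfalso
      apply hx
      have : (x : K) ≠ 0 := fun h => hx0 (Subtype.ext h)
      obtain ⟨p, hp, -⟩ := hX x x.2 this
      exact ⟨p, Subtype.ext hp.symm⟩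
  have h5 := (hg.hasSum_iff h4).2 h3
  convert h5 using 2 with p
  have : g p ≠ x0 := fun h => hne p (congrArg Subtype.val h)
  simp [this, g]

section
open scoped Classical

/-- (B) the integral over the fundamental domain for fixed `τ` -/
theorem lemB (hTH : T_TH) (hCT : T_CT) (hYC : T_YC) (hUI : T_UI) (hFD : T_FD) (hUN : T_UN)
    (M : FI K) (hM : M ≠ 0)
    (X : {I : Ideal (𝓞 K) // Pri K M I} → K)
    (hX0 : ∀ I, X I ≠ 0) (hXM : ∀ I (u : (𝓞 K)ˣ), (u : K) * X I ∈ M)
    (hX : ∀ x ∈ M, x ≠ 0 → ∃! p : {I : Ideal (𝓞 K) // Pri K M I} × (𝓞 K)ˣ, x = (p.2 : K) * X p.1)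
    [Countable {I : Ideal (𝓞 K) // Pri K M I}]
    (τ : ℝ) :
    IntegrableOn (fun z => th K M (yc K τ z) - 1) (Fd K) ∧
    0 ≤ ∫ z in Fd K, (th K M (yc K τ z) - 1) ∧
    ENNReal.ofReal (∫ z in Fd K, (th K M (yc K τ z) - 1)) =
      (torsionOrder K : ℝ≥0∞) * ∑' I, ∫⁻ z : logSpace K, ENNReal.ofReal (H K (X I) τ z) := by
  obtain ⟨hFm, ⟨B, hB⟩, hF0, hFt, hFl, -, -⟩ := hFD K
  have hcy : Continuous (fun z : logSpace K => yc K τ z) :=
    (hYC K).2.2.2.2.1.comp (continuous_const.prodMk continuous_id)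
  have hct : Continuous (fun z : logSpace K => th K M (yc K τ z) - 1) :=
    ((hCT K M hM).comp hcy).sub continuous_const
  have hsub : Fd K ⊆ Metric.closedBall 0 (max B 0) := by
    intro z hz
    rw [mem_closedBall_zero_iff, pi_norm_le_iff_of_nonneg (le_max_right _ _)]
    intro w
    exact (hB z hz w).trans (le_max_left _ _)
  have hint : IntegrableOn (fun z => th K M (yc K τ z) - 1) (Fd K) :=
    (hct.continuousOn.integrableOn_compact (isCompact_closedBall _ _)).mono_set hsub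
  have hA := fun z => lemA K hTH M hM X hX0 hXM hX (yc K τ z)
  have hnn : ∀ z, 0 ≤ th K M (yc K τ z) - 1 := fun z => (hA z).nonneg fun _ => (Real.exp_pos _).le
  refine ⟨hint, integral_nonneg hnn, ?_⟩
  rw [ofReal_integral_eq_lintegral_ofReal hint (ae_of_all _ hnn)]
  have hH : ∀ z, ENNReal.ofReal (th K M (yc K τ z) - 1) =
      ∑' I, (torsionOrder K : ℝ≥0∞) * ∑' l : unitLattice K,
        ENNReal.ofReal (H K (X I) τ (z + l)) := by
    intro z
    rw [← (hA z).tsum_eq, ENNReal.ofReal_tsum_of_nonneg (fun _ => (Real.exp_pos _).le)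
      (hA z).summable, ENNReal.tsum_prod']
    refine tsum_congr fun I => ?_
    rw [← hUN K (fun l => ENNReal.ofReal (H K (X I) τ (z + l)))]
    refine tsum_congr fun u => ?_
    rw [H, (hUI K M τ z u).1]
  have hcH : ∀ I, Continuous (fun z : logSpace K => H K (X I) τ z) := fun I =>
    (continuous_H K hYC (X I)).comp (continuous_const.prodMk continuous_id)
  calc ∫⁻ z in Fd K, ENNReal.ofReal (th K M (yc K τ z) - 1)
      = ∫⁻ z in Fd K, ∑' I, (torsionOrder K : ℝ≥0∞) * ∑' l : unitLattice K,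
        ENNReal.ofReal (H K (X I) τ (z + l)) := by
        refine lintegral_congr fun z => hH z
    _ = ∑' I, ∫⁻ z in Fd K, (torsionOrder K : ℝ≥0∞) * ∑' l : unitLattice K,
        ENNReal.ofReal (H K (X I) τ (z + l)) := by
        refine lintegral_tsum fun I => ?_
        refine Measurable.aemeasurable ?_
        refine Measurable.const_mul (Measurable.tsum fun l => ?_) _
        exact ENNReal.measurable_ofReal.comp
          ((hcH I).comp (continuous_id.add continuous_const)).measurable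
    _ = ∑' I, (torsionOrder K : ℝ≥0∞) * ∫⁻ z : logSpace K, ENNReal.ofReal (H K (X I) τ z) := by
        refine tsum_congr fun I => ?_
        rw [lintegral_const_mul']
        · rw [hFl (fun z => ENNReal.ofReal (H K (X I) τ z))
            (ENNReal.measurable_ofReal.comp (hcH I).measurable)]
        · exact ENNReal.natCast_ne_top _
    _ = _ := ENNReal.tsum_mul_left

/-- (C) -/
theorem lemC (hYC : T_YC) (M : FI K)
    (X : {I : Ideal (𝓞 K) // Pri K M I} → K) (τ : ℝ) (Φ : ℝ) (hΦ : 0 ≤ Φ)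
    (h : ENNReal.ofReal Φ =
      (torsionOrder K : ℝ≥0∞) * ∑' I, ∫⁻ z : logSpace K, ENNReal.ofReal (H K (X I) τ z)) :
    (Φ : ℂ) = (torsionOrder K : ℂ) * ∑' I, ((∫ z : logSpace K, H K (X I) τ z : ℝ) : ℂ) := by
  have hw : (torsionOrder K : ℝ≥0∞) ≠ 0 := by exact_mod_cast torsionOrder_ne_zero K
  have hfin : ∑' I, ∫⁻ z : logSpace K, ENNReal.ofReal (H K (X I) τ z) ≠ ∞ := by
    intro h1
    rw [h1, ENNReal.mul_top hw] at h
    exact ENNReal.ofReal_ne_top h
  have hfin2 : ∀ I, ∫⁻ z : logSpace K, ENNReal.ofReal (H K (X I) τ z) ≠ ∞ :=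
    fun I => ENNReal.ne_top_of_tsum_ne_top hfin I
  have hcH : ∀ I, Continuous (fun z : logSpace K => H K (X I) τ z) := fun I =>
    (continuous_H K hYC (X I)).comp (continuous_const.prodMk continuous_id)
  have h2 : ∀ I, ∫ z : logSpace K, H K (X I) τ z =
      (∫⁻ z : logSpace K, ENNReal.ofReal (H K (X I) τ z)).toReal := fun I =>
    integral_eq_lintegral_of_nonneg_ae (ae_of_all _ fun z => (H_pos K _ _ _).le)
      (hcH I).aestronglyMeasurable
  have h3 : Φ = (torsionOrder K : ℝ) * ∑' I, ∫ z : logSpace K, H K (X I) τ z := by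
    rw [← ENNReal.toReal_ofReal hΦ, h, ENNReal.toReal_mul, ENNReal.tsum_toReal_eq hfin2]
    simp only [h2, ENNReal.toReal_natCast]
  rw [h3, Complex.ofReal_mul, Complex.ofReal_tsum, Complex.ofReal_natCast]

/-- (D) -/
theorem lemD (hGI : T_GI) (x : K) (hx : x ≠ 0) (s : ℂ) (hs : 0 < s.re) :
    AEStronglyMeasurable
      (fun τ : ℝ => cexp (s * τ) * ((∫ z : logSpace K, H K x τ z : ℝ) : ℂ)) volume ∧
    ∫ τ : ℝ, cexp (s * τ) * ((∫ z : logSpace K, H K x τ z : ℝ) : ℂ) =
      ((2 : ℂ) ^ (nrRealPlaces K + nrComplexPlaces K))⁻¹ * gK K s *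
        (((|Algebra.norm ℚ x| : ℚ) : ℝ) : ℂ) ^ (-s) ∧
    ∫⁻ τ : ℝ, ‖cexp (s * τ) * ((∫ z : logSpace K, H K x τ z : ℝ) : ℂ)‖ₑ ≤
      ENNReal.ofReal ‖((2 : ℂ) ^ (nrRealPlaces K + nrComplexPlaces K))⁻¹ * gK K (s.re : ℂ) *
        (((|Algebra.norm ℚ x| : ℚ) : ℝ) : ℂ) ^ (-(s.re : ℂ))‖ := by
  obtain ⟨h1, h2⟩ := hGI K x s hx hs
  obtain ⟨h3, h4⟩ := hGI K x (s.re : ℂ) hx (by simpa using hs)
  set G : ℝ × logSpace K → ℂ := fun p =>
    (Real.exp (-Real.pi * qK K (yc K p.1 p.2) x) : ℂ) * cexp (s * p.1) with hG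
  have hin : ∀ τ : ℝ, ∫ z : logSpace K, G (τ, z) =
      cexp (s * τ) * ((∫ z : logSpace K, H K x τ z : ℝ) : ℂ) := by
    intro τ
    simp only [hG]
    rw [integral_mul_const, mul_comm, integral_complex_ofReal]
    rfl
  have hGn : ∀ p, ‖G p‖ = Real.exp (-Real.pi * qK K (yc K p.1 p.2) x) *
      Real.exp (s.re * p.1) := by
    intro p
    simp only [hG, norm_mul, Complex.norm_real, Complex.norm_exp]
    rw [Real.norm_of_nonneg (Real.exp_pos _).le]
    simp
  refine ⟨?_, ?_, ?_⟩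
  · have h5 := (h1.integral_prod_left).1
    refine h5.congr (ae_of_all _ fun τ => hin τ)
  · rw [← h2, Measure.volume_eq_prod, integral_prod _ h1]
    refine integral_congr_ae (ae_of_all _ fun τ => (hin τ).symm)
  · calc ∫⁻ τ : ℝ, ‖cexp (s * τ) * ((∫ z : logSpace K, H K x τ z : ℝ) : ℂ)‖ₑ
        ≤ ∫⁻ τ : ℝ, ∫⁻ z : logSpace K, ‖G (τ, z)‖ₑ := by
          refine lintegral_mono fun τ => ?_
          rw [← hin τ]
          exact enorm_integral_le_lintegral_enorm _
      _ = ∫⁻ p : ℝ × logSpace K, ‖G p‖ₑ := by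
          rw [Measure.volume_eq_prod, lintegral_prod _ h1.1.enorm]
      _ = ENNReal.ofReal (∫ p : ℝ × logSpace K, ‖G p‖) :=
          (ofReal_integral_norm_eq_lintegral_enorm h1).symm
      _ ≤ _ := by
          refine ENNReal.ofReal_le_ofReal ?_
          rw [← h4]
          have h6 : ∀ p : ℝ × logSpace K, (Real.exp (-Real.pi * qK K (yc K p.1 p.2) x) : ℂ) *
              cexp ((s.re : ℂ) * p.1) = ((‖G p‖ : ℝ) : ℂ) := by
            intro p
            rw [hGn]
            push_cast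
            rfl
          simp only [h6]
          rw [integral_complex_ofReal, Complex.norm_real]
          exact le_abs_self _

/-- the Mellin transform of the averaged theta function -/
theorem me (hBI : T_BI) (hUN : T_UN) (hGI : T_GI) (hFD : T_FD) (hTH : T_TH) (hDS : T_DS)
    (hCT : T_CT) (hYC : T_YC) (hUI : T_UI) : T_ME := by
  intro K _ _ M hM s hs
  obtain ⟨X, hX1, hXM, hX⟩ := hBI K M hM
  have hX0 : ∀ I, X I ≠ 0 := fun I => (hX1 I).1
  have hXN := fun I => (hX1 I).2
  have hs0 : 0 < s.re := by linarith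
  -- countability
  haveI : Countable {I : Ideal (𝓞 K) // Pri K M I} := by
    have h1 := (hTH K M hM 0).1.countable_support
    have h2 : Function.support (fun x : {x : K // x ∈ M} => Real.exp (-Real.pi * qK K 0 x)) =
        Set.univ := by
      ext x
      simp [(Real.exp_pos _).ne']
    rw [h2, Set.countable_univ_iff] at h1
    refine Function.Injective.countable (f := fun I => (⟨X I, by
      simpa using hXM I 1⟩ : {x : K // x ∈ M})) ?_
    intro I J hIJ
    have e : X I = X J := congrArg Subtype.val hIJ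
    have e1 := hX (X I) (by simpa using hXM I 1) (hX0 I)
    have e2 := e1.unique (y₁ := (I, 1)) (y₂ := (J, 1)) (by simp) (by simp [e])
    exact congrArg Prod.fst e2
  have hB := fun τ => lemB K hTH hCT hYC hUI hFD hUN M hM X hX0 hXM hX τ
  have hC := fun τ => lemC K hYC M X τ _ (hB τ).2.1 (hB τ).2.2
  have hD := fun I => lemD K hGI (X I) (hX0 I) s hs0
  obtain ⟨hFm, -, hF0, hFt, -, -, -⟩ := hFD K
  -- the value of the averaged theta function
  have hff : ∀ τ : ℝ, (ff K M (Real.exp τ) : ℂ) - ((volume.real (Fd K) : ℝ) : ℂ) =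
      ((∫ z in Fd K, (th K M (yc K τ z) - 1) : ℝ) : ℂ) := by
    intro τ
    rw [← Complex.ofReal_sub]
    congr 1
    have h1 := (hB τ).1
    have h2 : IntegrableOn (fun _ : logSpace K => (1 : ℝ)) (Fd K) :=
      integrableOn_const hFt.ne
    have h3 : ff K M (Real.exp τ) = ∫ z in Fd K, ((th K M (yc K τ z) - 1) + 1) := by
      rw [ff]
      simp only [Real.log_exp, sub_add_cancel]
    rw [h3, integral_add h1 h2, setIntegral_const, smul_eq_mul, mul_one]
    ring
  rw [mellin_exp]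
  have hnorm : ∀ (I : {I : Ideal (𝓞 K) // Pri K M I}) (w : ℂ),
      (((|Algebra.norm ℚ (X I)| : ℚ) : ℝ) : ℂ) ^ w =
        (Ideal.absNorm I.1 : ℂ) ^ w * ((FractionalIdeal.absNorm M : ℝ) : ℂ) ^ w := by
    intro I w
    rw [hXN I, Complex.ofReal_mul, Complex.mul_cpow_ofReal_nonneg (by positivity) (by
      exact_mod_cast FractionalIdeal.absNorm_nonneg M)]
    norm_num
  have hsumm : ∑' I : {I : Ideal (𝓞 K) // Pri K M I},
      ∫⁻ τ : ℝ, ‖cexp (s * τ) * ((∫ z : logSpace K, H K (X I) τ z : ℝ) : ℂ)‖ₑ ≠ ∞ := by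
    refine ne_top_of_le_ne_top ?_ (ENNReal.tsum_le_tsum fun I => (hD I).2.2)
    refine Summable.tsum_ofReal_ne_top ?_
    have h1 := (hDS K (s.re : ℂ) (by simpa using hs)).1
    have h2 : Function.Injective (fun I : {I : Ideal (𝓞 K) // Pri K M I} =>
        (⟨I.1, I.2.1⟩ : {I : Ideal (𝓞 K) // I ≠ ⊥})) := by
      intro I J h
      have h' : I.1 = J.1 := by simpa using h
      exact Subtype.ext h'
    have h3 := h1.comp_injective h2
    have h4 := h3.mul_left (‖((2 : ℂ) ^ (nrRealPlaces K + nrComplexPlaces K))⁻¹ *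
      gK K (s.re : ℂ)‖ * ‖((FractionalIdeal.absNorm M : ℝ) : ℂ) ^ (-(s.re : ℂ))‖)
    refine h4.congr fun I => ?_
    rw [hnorm]
    simp only [norm_mul, Function.comp]
    ring
  calc ∫ τ : ℝ, cexp (s * τ) * ((ff K M (Real.exp τ) : ℂ) - ((volume.real (Fd K) : ℝ) : ℂ))
      = ∫ τ : ℝ, (torsionOrder K : ℂ) * ∑' I,
          cexp (s * τ) * ((∫ z : logSpace K, H K (X I) τ z : ℝ) : ℂ) := by
        refine integral_congr_ae (ae_of_all _ fun τ => ?_)
        simp only
        rw [hff, hC, tsum_mul_left]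
        ring
    _ = (torsionOrder K : ℂ) * ∑' I, ∫ τ : ℝ,
          cexp (s * τ) * ((∫ z : logSpace K, H K (X I) τ z : ℝ) : ℂ) := by
        rw [integral_const_mul, integral_tsum (fun I => (hD I).1) hsumm]
    _ = _ := by
        simp only [(hD _).2.1, hnorm]
        rw [mul_assoc, mul_assoc, mul_assoc]
        congr 1
        rw [← tsum_mul_left, ← tsum_mul_left, ← tsum_mul_left]
        refine tsum_congr fun I => ?_
        ring

end

end Pool.Agent.H66.HK
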